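import Pool.Agent.Q33.Zeta.Dilog
import Pool.Agent.Q33.Zeta.Trin

/-! Sun's supercongruence for `∑ T_k(3,3) M_k(3,3) (-3)^(-k)`. -/

namespace Pool.Agent.Results.MP_fcf7f4_nt.TrinomialMotzkin

open Finset Q33.Harm Pool.Agent.Q33.Zeta

/-- `T_n(b,c) = ∑_j C(n,2j) C(2j,j) b^(n-2j) c^j` -/
def T (b c : ℤ) (n : ℕ) : ℤ :=
  ∑ j ∈ range (n / 2 + 1), (n.choose (2 * j) : ℤ) * ((2 * j).choose j : ℤ) * b ^ (n - 2 * j) * c ^ j

/-- `M_n(b,c) = ∑_j C(n,2j) C_j b^(n-2j) c^j`, with the Catalan number `C_j = C(2j,j)/(j+1)`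
(an exact division of natural numbers) -/
def M (b c : ℤ) (n : ℕ) : ℤ :=
  ∑ j ∈ range (n / 2 + 1), (n.choose (2 * j) : ℤ) * (((2 * j).choose j / (j + 1) : ℕ) : ℤ) * b ^ (n - 2 * j) * c ^ j

/-- `S(p) = ∑_{k<p} (-3)^(-k) T_k(3,3) M_k(3,3)` -/
def S (p : ℕ) : ℚ := ∑ k ∈ range p, ((T 3 3 k : ℚ) * (M 3 3 k : ℚ)) / (-3 : ℚ) ^ k

section ring
variable {p : ℕ} [hp : Fact p.Prime]

theorem reflect {R : Type*} [CommRing R] (ι : ℤ_[p] →+* R) {z w : R} (hzw : z * w = 1) :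
    (p : R) ∣ L2 ι w - w ^ p * L2 ι z := by
  have h1 : L2 ι w = ∑ k ∈ Ico 1 p, ι (v p (p - k) ^ 2) * w ^ (p - k) := by
    unfold L2
    refine sum_nbij' (fun j => p - j) (fun j => p - j) ?_ ?_ ?_ ?_ ?_
    · intro j hj; rw [mem_Ico] at hj ⊢; omega
    · intro j hj; rw [mem_Ico] at hj ⊢; omega
    · intro j hj; rw [mem_Ico] at hj; show p - (p - j) = j; omega
    · intro j hj; rw [mem_Ico] at hj; show p - (p - j) = j; omega
    · intro j hj; rw [mem_Ico] at hj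
      show ι (v p j ^ 2) * w ^ j = ι (v p (p - (p - j)) ^ 2) * w ^ (p - (p - j))
      rw [show p - (p - j) = j by omega]
  rw [h1]
  unfold L2
  rw [mul_sum, ← sum_sub_distrib]
  apply dvd_sum
  intro k hk
  have hr := v_reflect hk
  rw [mem_Ico] at hk
  have h2 : w ^ (p - k) = w ^ p * z ^ k := by
    have h3 : w ^ p = w ^ (p - k) * w ^ k := by
      rw [← pow_add]
      congr 1
      omega
    have h4 : w ^ k * z ^ k = 1 := by rw [← mul_pow, mul_comm w z, hzw, one_pow]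
    rw [h3, mul_assoc, h4, mul_one]
  have h5 : (p : ℤ_[p]) ∣ v p (p - k) ^ 2 - v p k ^ 2 := by
    refine ⟨(-v p k ^ 2 + p * (v p k ^ 2 * v p (p - k))) * (v p (p - k) - v p k), ?_⟩
    linear_combination (v p (p - k) - v p k) * hr
  obtain ⟨c, hc⟩ := h5
  refine ⟨ι c * (w ^ p * z ^ k), ?_⟩
  rw [h2]
  have h6 := congrArg ι hc
  rw [map_sub, map_mul, map_natCast] at h6
  linear_combination (w ^ p * z ^ k) * h6

variable (p) in
/-- `ℤ_p[ζ]`, `ζ^2 = ζ - 1` -/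
abbrev R := QuadraticAlgebra ℤ_[p] (-1) 1

variable (p) in
/-- the sixth root of unity -/
noncomputable def z : R p := ⟨0, 1⟩

theorem z_sq : z p ^ 2 = z p - 1 := by
  unfold z
  rw [sq]
  ext <;> simp [QuadraticAlgebra.re_one, QuadraticAlgebra.im_one]

theorem dvd_of_R {k : ℕ} {x : ℤ} (h : ((p : ℕ) : R p) ^ k ∣ ((x : ℤ) : R p)) : (p : ℤ) ^ k ∣ x := by
  have h1 : algebraMap ℤ_[p] (R p) ((p : ℤ_[p]) ^ k) ∣ algebraMap ℤ_[p] (R p) ((x : ℤ) : ℤ_[p]) := by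
    rw [map_pow, map_natCast, map_intCast]
    exact h
  rw [QuadraticAlgebra.algebraMap_dvd_iff_dvd, PadicInt.pow_p_dvd_int_iff] at h1
  exact h1

theorem beta_b : ((3 : ℤ) : R p) = (2 - z p) * (1 + z p) := by
  push_cast
  linear_combination z_sq (p := p)

theorem beta_c : ((3 : ℤ) : R p) = (2 - z p) ^ 2 * z p := by
  push_cast
  linear_combination (3 - z p) * z_sq (p := p)

theorem w_cube : (1 - z p) ^ 3 = -1 := by
  linear_combination (2 - z p) * z_sq (p := p)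

theorem z_cube : z p ^ 3 = -1 := by
  linear_combination (z p + 1) * z_sq (p := p)

theorem beta_sq : (2 - z p) ^ 2 = 3 * (1 - z p) := by
  linear_combination z_sq (p := p)

/-- case `p = 6n - 1` -/
theorem case5 {n : ℕ} (hn : p + 1 = 6 * n) :
    (p : ℤ) ^ 3 ∣ T 3 3 p - T 3 3 (p - 1) + 4 * (3 ^ (3 * n - 1) * (-1) ^ (n - 1)) ∧
    (p : ℤ) ^ 2 ∣ T 3 3 (p - 1) - 3 ^ (3 * n - 1) * (-1) ^ (n - 1) := by
  have h2 : p ≠ 2 := by omega
  have h3 : p ≠ 3 := by omega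
  have hpos := hp.out.two_le
  have hz := z_sq (p := p)
  set ζ := z p with hζ
  set ι := algebraMap ℤ_[p] (R p) with hι
  have hpz : ζ ^ p = 1 - ζ := by
    have h5 : ζ ^ p * ζ = 1 := by
      rw [← pow_succ, hn, show 6 * n = 3 * (2 * n) by ring, pow_mul, z_cube]
      exact Even.neg_one_pow (even_two_mul n)
    linear_combination (1 - ζ) * h5 + ζ ^ p * hz
  have hpw : (1 - ζ) ^ p = ζ := by
    have h5 : (1 - ζ) ^ p * (1 - ζ) = 1 := by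
      rw [← pow_succ, hn, show 6 * n = 3 * (2 * n) by ring, pow_mul, w_cube]
      exact Even.neg_one_pow (even_two_mul n)
    linear_combination ζ * h5 + (1 - ζ) ^ p * hz
  obtain ⟨c1, hc1⟩ := one_sub_pow_mod ι h2 ζ
  obtain ⟨c2, hc2⟩ := sum_sq_mod ι ζ
  obtain ⟨c3, hc3⟩ := sum_sq_pred_mod ι ζ
  obtain ⟨c4, hc4⟩ := dilog ι h2 h3 ζ
  obtain ⟨c5, hc5⟩ := reflect ι (z := ζ) (w := 1 - ζ) (by linear_combination -hz)
  rw [hpw, hpz] at hc1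
  rw [hpz] at hc2 hc3
  rw [hpw] at hc5
  have hT := T_zeta (R := R p) 3 3 (2 - ζ) ζ beta_b beta_c p
  have hT1 := T_zeta (R := R p) 3 3 (2 - ζ) ζ beta_b beta_c (p - 1)
  rw [show p - 1 + 1 = p by omega] at hT1
  set SP := ∑ k ∈ range (p + 1), ((p.choose k : ℕ) : R p) ^ 2 * ζ ^ k
  set SQ := ∑ k ∈ range p, (((p - 1).choose k : ℕ) : R p) ^ 2 * ζ ^ k
  have hβ : (2 - ζ) ^ p = (2 - ζ) ^ (p - 1) * (2 - ζ) := by
    rw [← pow_succ, show p - 1 + 1 = p by omega]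
  have hA : ((3 ^ (3 * n - 1) * (-1) ^ (n - 1) : ℤ) : R p) = (2 - ζ) ^ (p - 1) * ζ ^ 2 := by
    rw [show p - 1 = 2 * (3 * n - 1) by omega, pow_mul, beta_sq, mul_pow]
    have h6 : (1 - ζ) ^ (3 * n - 1) * ζ ^ 2 = (-1) ^ (n - 1) := by
      rw [show 3 * n - 1 = 3 * (n - 1) + 2 by omega, pow_add, pow_mul, w_cube, mul_assoc, ← mul_pow,
        show (1 - ζ) * ζ = 1 by linear_combination -hz, one_pow, mul_one]
    push_cast
    linear_combination (-(3 : R p) ^ (3 * n - 1)) * h6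
  have e1 : ((T 3 3 p : ℤ) : R p) = (2 - ζ) ^ p * SP := hT
  have e2 : ((T 3 3 (p - 1) : ℤ) : R p) = (2 - ζ) ^ (p - 1) * SQ := hT1
  have hSQ : SQ = -ζ * ((ζ - 1) * SQ) := by linear_combination SQ * hz
  constructor
  · apply dvd_of_R (p := p)
    refine ⟨(2 - ζ) ^ (p - 1) * ((2 - ζ) * c2 + ζ * c3 + 2 * ζ * c1 + 2 * ζ * c5 - 2 * ζ * c4), ?_⟩
    have h7 : (2 - ζ) * SP - SQ + 4 * ζ ^ 2
        = (p : R p) ^ 3 * ((2 - ζ) * c2 + ζ * c3 + 2 * ζ * c1 + 2 * ζ * c5 - 2 * ζ * c4) := by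
      rw [hSQ]
      linear_combination (2 - ζ) * hc2 + ζ * hc3 + 2 * ζ * hc1 - 2 * (p : R p) ^ 2 * ζ * hc4
        + 2 * (p : R p) ^ 2 * ζ * hc5 + (4 + 2 * (p : R p) ^ 2 * L2 ι ζ) * hz
    have h8 : ((T 3 3 p - T 3 3 (p - 1) + 4 * (3 ^ (3 * n - 1) * (-1) ^ (n - 1)) : ℤ) : R p)
        = (2 - ζ) ^ (p - 1) * ((2 - ζ) * SP - SQ + 4 * ζ ^ 2) := by
      rw [Int.cast_add, Int.cast_sub, Int.cast_mul, hA, e1, e2, hβ]
      push_cast
      ring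
    rw [h8, h7]
    ring
  · apply dvd_of_R (p := p)
    refine ⟨(2 - ζ) ^ (p - 1) * (-ζ * (-2 * Y ι ζ + 2 * p * c1 - L2 ι ζ + p * c3)), ?_⟩
    have h7 : SQ - ζ ^ 2 = (p : R p) ^ 2 * (-ζ * (-2 * Y ι ζ + 2 * p * c1 - L2 ι ζ + p * c3)) := by
      rw [hSQ]
      linear_combination -ζ * hc3 - 2 * ζ * hc1
    have h8 : ((T 3 3 (p - 1) - 3 ^ (3 * n - 1) * (-1) ^ (n - 1) : ℤ) : R p)
        = (2 - ζ) ^ (p - 1) * (SQ - ζ ^ 2) := by
      rw [Int.cast_sub, hA, e2]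
      ring
    rw [h8, h7]
    ring

/-- case `p = 6n + 1` -/
theorem case1 {n : ℕ} (hn : p = 6 * n + 1) :
    (p : ℤ) ^ 2 ∣ T 3 3 p - 3 * (3 ^ (3 * n) * (-1) ^ n) ∧
    (p : ℤ) ^ 2 ∣ T 3 3 (p - 1) - 3 ^ (3 * n) * (-1) ^ n := by
  have hpos := hp.out.two_le
  have h2 : p ≠ 2 := by omega
  have hz := z_sq (p := p)
  set ζ := z p with hζ
  set ι := algebraMap ℤ_[p] (R p) with hι
  have hpz : ζ ^ p = ζ := by
    have h5 : ζ ^ (6 * n) = 1 := by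
      rw [show 6 * n = 3 * (2 * n) by ring, pow_mul, z_cube]
      exact Even.neg_one_pow (even_two_mul n)
    have h6 : ζ ^ p = ζ ^ (6 * n + 1) := congrArg (fun m : ℕ => ζ ^ m) hn
    rw [h6, pow_succ, h5, one_mul]
  have hpw : (1 - ζ) ^ p = 1 - ζ := by
    have h5 : (1 - ζ) ^ (6 * n) = 1 := by
      rw [show 6 * n = 3 * (2 * n) by ring, pow_mul, w_cube]
      exact Even.neg_one_pow (even_two_mul n)
    have h6 : (1 - ζ) ^ p = (1 - ζ) ^ (6 * n + 1) := congrArg (fun m : ℕ => (1 - ζ) ^ m) hn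
    rw [h6, pow_succ, h5, one_mul]
  obtain ⟨c1, hc1⟩ := one_sub_pow_mod ι h2 ζ
  obtain ⟨c2, hc2⟩ := sum_sq_mod ι ζ
  obtain ⟨c3, hc3⟩ := sum_sq_pred_mod ι ζ
  rw [hpw, hpz] at hc1
  rw [hpz] at hc2 hc3
  have hT := T_zeta (R := R p) 3 3 (2 - ζ) ζ beta_b beta_c p
  have hT1 := T_zeta (R := R p) 3 3 (2 - ζ) ζ beta_b beta_c (p - 1)
  rw [show p - 1 + 1 = p by omega] at hT1
  set SP := ∑ k ∈ range (p + 1), ((p.choose k : ℕ) : R p) ^ 2 * ζ ^ k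
  set SQ := ∑ k ∈ range p, (((p - 1).choose k : ℕ) : R p) ^ 2 * ζ ^ k
  have hβ : (2 - ζ) ^ p = (2 - ζ) ^ (p - 1) * (2 - ζ) := by
    rw [← pow_succ, show p - 1 + 1 = p by omega]
  have hA : ((3 ^ (3 * n) * (-1) ^ n : ℤ) : R p) = (2 - ζ) ^ (p - 1) := by
    rw [show p - 1 = 2 * (3 * n) by omega, pow_mul (2 - ζ) 2 (3 * n), beta_sq, mul_pow]
    have h6 : (1 - ζ) ^ (3 * n) = (-1) ^ n := by
      rw [pow_mul, w_cube]
    push_cast
    rw [h6]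
  have e1 : ((T 3 3 p : ℤ) : R p) = (2 - ζ) ^ p * SP := hT
  have e2 : ((T 3 3 (p - 1) : ℤ) : R p) = (2 - ζ) ^ (p - 1) * SQ := hT1
  have hSQ : SQ = -ζ * ((ζ - 1) * SQ) := by linear_combination SQ * hz
  constructor
  · apply dvd_of_R (p := p)
    refine ⟨(2 - ζ) ^ (p - 1) * ((2 - ζ) * (L2 ι ζ + p * c2)), ?_⟩
    have h7 : (2 - ζ) * SP - 3 = (p : R p) ^ 2 * ((2 - ζ) * (L2 ι ζ + p * c2)) := by
      linear_combination (2 - ζ) * hc2 - hz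
    have h8 : ((T 3 3 p - 3 * (3 ^ (3 * n) * (-1) ^ n) : ℤ) : R p)
        = (2 - ζ) ^ (p - 1) * ((2 - ζ) * SP - 3) := by
      rw [Int.cast_sub, Int.cast_mul, hA, e1, hβ]
      push_cast
      ring
    rw [h8, h7]
    ring
  · apply dvd_of_R (p := p)
    refine ⟨(2 - ζ) ^ (p - 1) * (-ζ * (-2 * Y ι ζ + 2 * p * c1 - L2 ι ζ + p * c3)), ?_⟩
    have h7 : SQ - 1 = (p : R p) ^ 2 * (-ζ * (-2 * Y ι ζ + 2 * p * c1 - L2 ι ζ + p * c3)) := by
      rw [hSQ]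
      linear_combination -ζ * hc3 - 2 * ζ * hc1 - hz
    have h8 : ((T 3 3 (p - 1) - 3 ^ (3 * n) * (-1) ^ n : ℤ) : R p)
        = (2 - ζ) ^ (p - 1) * (SQ - 1) := by
      rw [Int.cast_sub, hA, e2]
      ring
    rw [h8, h7]
    ring

end ring

/-- the integer sum -/
def K (n : ℕ) : ℤ := Pool.Agent.Q33.Zeta.K 3 3 n

theorem S_eq (p : ℕ) : S p * (-3) ^ (p - 1) = ((K p : ℤ) : ℚ) := by
  unfold S K Pool.Agent.Q33.Zeta.K
  rw [sum_mul]
  push_cast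
  refine sum_congr rfl fun k hk => ?_
  rw [mem_range] at hk
  have h1 : (-3 : ℚ) ^ (p - 1) = (-3) ^ (p - 1 - k) * (-3) ^ k := by
    rw [← pow_add]
    congr 1
    omega
  have h2 : (-3 : ℚ) ^ k ≠ 0 := pow_ne_zero _ (by norm_num)
  rw [h1]
  field_simp
  rfl

/-- transfer from integers to the numerator of the rational number -/
theorem transfer {p k : ℕ} (hp : p.Prime) (h3 : p ≠ 3) (x : ℚ) (N : ℤ) (m : ℕ)
    (hx : x * (3 : ℚ) ^ m * (p + 1) * 6 = (N : ℚ)) (hy : (p : ℤ) ^ k ∣ N) (h2 : p ≠ 2) :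
    (p : ℤ) ^ k ∣ x.num := by
  have h1 : x.num * ((3 : ℤ) ^ m * (p + 1) * 6) = N * x.den := by
    have h8 : (x.num : ℚ) = x * x.den := (Rat.mul_den_eq_num x).symm
    have h9 : ((x.num * ((3 : ℤ) ^ m * (p + 1) * 6) : ℤ) : ℚ) = ((N * x.den : ℤ) : ℚ) := by
      push_cast
      rw [← hx, h8]
      ring
    exact_mod_cast h9
  have h4 : (p : ℤ) ^ k ∣ x.num * ((3 : ℤ) ^ m * (p + 1) * 6) := by
    rw [h1]
    exact hy.mul_right _
  have hc : IsCoprime ((p : ℤ) ^ k) ((3 : ℤ) ^ m * (p + 1) * 6) := by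
    apply IsCoprime.pow_left
    have c3 : IsCoprime (p : ℤ) 3 := by
      have := (Nat.coprime_primes hp Nat.prime_three).2 h3
      exact_mod_cast Nat.isCoprime_iff_coprime.2 this
    have c2 : IsCoprime (p : ℤ) 2 := by
      have := (Nat.coprime_primes hp Nat.prime_two).2 h2
      exact_mod_cast Nat.isCoprime_iff_coprime.2 this
    refine IsCoprime.mul_right (IsCoprime.mul_right c3.pow_right ?_) ?_
    · exact ⟨-1, 1, by ring⟩
    · rw [show (6 : ℤ) = 2 * 3 by norm_num]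
      exact IsCoprime.mul_right c2 c3
  exact hc.dvd_of_dvd_mul_right h4

/-- the integer identity behind the sum -/
theorem K_id (p : ℕ) : 6 * ((p : ℤ) + 1) * K p
    = p * (3 * (2 * p + 1) * T 3 3 p * T 3 3 (p - 1) + 3 * p * T 3 3 (p - 1) ^ 2 - (p + 1) * T 3 3 p ^ 2) := by
  have h1 := K_closed 3 3 p
  have h2 := Pool.Agent.Q33.Tri.T_rec' 3 3 p
  have h1' : 2 * 3 * K p = p * (T 3 3 (p - 1) * T 3 3 (p + 1) - T 3 3 p ^ 2) := h1
  have h2' : ((p : ℤ) + 1) * T 3 3 (p + 1) = (2 * (p : ℤ) + 1) * 3 * T 3 3 p - (p : ℤ) * (3 ^ 2 - 4 * 3) * T 3 3 (p - 1) := h2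
  linear_combination ((p : ℤ) + 1) * h1' + p * T 3 3 (p - 1) * h2'

/-- **MP_fcf7f4**, Q1: for every prime `p > 3`: if `p ≡ 1 (mod 3)` then `S(p) ≡ 2p^2 (mod p^3)`, and
if `p ≡ 2 (mod 3)` then `S(p) ≡ p^3 - p^2 - 3p (mod p^4)` (the numerator of the difference is
divisible by the power of `p`). -/
theorem result (p : ℕ) (hp : p.Prime) (h3 : 3 < p) :
    (p % 3 = 1 → (p : ℤ) ^ 3 ∣ (S p - 2 * (p : ℚ) ^ 2).num) ∧
    (p % 3 = 2 → (p : ℤ) ^ 4 ∣ (S p - ((p : ℚ) ^ 3 - (p : ℚ) ^ 2 - 3 * (p : ℚ))).num) := by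
  have hf : Fact p.Prime := ⟨hp⟩
  have hodd := hp.eq_two_or_odd
  have hid := K_id p
  have hS := S_eq p
  have heven : Even (p - 1) := hp.even_sub_one (by omega)
  rw [heven.neg_pow] at hS
  constructor
  · intro h1
    obtain ⟨n, hn⟩ : ∃ n, p = 6 * n + 1 := ⟨(p - 1) / 6, by omega⟩
    obtain ⟨⟨u, hu⟩, ⟨w, hw⟩⟩ := case1 (p := p) hn
    set A : ℤ := 3 ^ (3 * n) * (-1) ^ n with hA
    have hA2 : A ^ 2 = 3 ^ (p - 1) := by
      rw [hA, mul_pow, ← pow_mul, ← pow_mul, show 3 * n * 2 = p - 1 by omega, mul_comm n 2, pow_mul]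
      norm_num
    set t := T 3 3 p
    set a := T 3 3 (p - 1)
    have ht : t = 3 * A + (p : ℤ) ^ 2 * u := by linear_combination hu
    have ha : a = A + (p : ℤ) ^ 2 * w := by linear_combination hw
    apply transfer hp (by omega) _ (6 * ((p : ℤ) + 1) * K p - 12 * (p + 1) * (p : ℤ) ^ 2 * 3 ^ (p - 1)) (p - 1) _ _ (by omega)
    · push_cast
      rw [← hS]
      ring
    · rw [hid, ← hA2, ht, ha]
      refine ⟨3 * (2 * p + 1) * (3 * A * w + u * A + p ^ 2 * u * w) + 3 * p * (2 * A * w + p ^ 2 * w ^ 2)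
        - (p + 1) * (6 * A * u + p ^ 2 * u ^ 2) - 12 * A ^ 2, ?_⟩
      ring
  · intro h1
    obtain ⟨n, hn⟩ : ∃ n, p + 1 = 6 * n := ⟨(p + 1) / 6, by omega⟩
    obtain ⟨⟨u, hu⟩, ⟨w, hw⟩⟩ := case5 (p := p) hn
    set A : ℤ := 3 ^ (3 * n - 1) * (-1) ^ (n - 1) with hA
    have hA2 : A ^ 2 = 3 ^ (p - 1) := by
      rw [hA, mul_pow, ← pow_mul, ← pow_mul, show (3 * n - 1) * 2 = p - 1 by omega, mul_comm (n - 1) 2, pow_mul]
      norm_num
    set t := T 3 3 p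
    set a := T 3 3 (p - 1)
    have ha : a = A + (p : ℤ) ^ 2 * w := by linear_combination hw
    have ht : t = -3 * A + (p : ℤ) ^ 2 * w + (p : ℤ) ^ 3 * u := by linear_combination hu + ha
    apply transfer hp (by omega) _ (6 * ((p : ℤ) + 1) * K p
      - 6 * (p + 1) * ((p : ℤ) ^ 3 - (p : ℤ) ^ 2 - 3 * p) * 3 ^ (p - 1)) (p - 1) _ _ (by omega)
    · push_cast
      rw [← hS]
      ring
    · rw [hid, ← hA2, ht, ha]
      refine ⟨-6 * A ^ 2 + u * A * (12 * p + 9) + p * (3 * (2 * p + 1) * (w ^ 2 + p * u * w) + 3 * p * w ^ 2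
        - (p + 1) * (w + p * u) ^ 2), ?_⟩
      ring

end Pool.Agent.Results.MP_fcf7f4_nt.TrinomialMotzkin
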